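import Mathlib
import Pool.Agent.Q214.PC.Torus

/-!
MP_27056a: for every `d ≥ 2` (in particular for every `d ≥ 3`) there is a free Borel action of
`ℤ^d` such that every coordinate subaction has a Borel proper 2-coloring, but whose grid graph has
no Borel `2^d`-polychromatic coloring.
-/

namespace Pool.Agent.Results.MP_27056a_lc.NoPolychromatic

open Q214.PC

/-- A Borel action of `ℤ^d` on a standard Borel space `X`. -/
structure BorelAction (d : ℕ) (X : Type) [MeasurableSpace X] where
  act : (Fin d → ℤ) → X → X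
  act_zero : ∀ x, act 0 x = x
  act_add : ∀ m n x, act (m + n) x = act m (act n x)
  measurable_act : ∀ n, Measurable (act n)

/-- The action is free. -/
def IsFree {d : ℕ} {X : Type} [MeasurableSpace X] (a : BorelAction d X) : Prop :=
  ∀ n x, a.act n x = x → n = 0

/-- `c` is a Borel proper 2-coloring of the `i`-th coordinate subaction. -/
def IsTwoColoring {d : ℕ} {X : Type} [MeasurableSpace X] (a : BorelAction d X) (i : Fin d)
    (c : X → Bool) : Prop :=
  Measurable c ∧ ∀ x, c (a.act (Pi.single i 1) x) ≠ c x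

/-- `c` is a Borel `k`-polychromatic coloring: every unit cube `{0,1}^d · x` contains points of all
`k` colors. -/
def IsPolychromatic {d : ℕ} {X : Type} [MeasurableSpace X] (a : BorelAction d X) (k : ℕ)
    (c : X → Fin k) : Prop :=
  Measurable c ∧ ∀ (x : X) (j : Fin k), ∃ ε : Fin d → ℤ, (∀ i, ε i = 0 ∨ ε i = 1) ∧ c (a.act ε x) = j

/-- the transcendental number used -/
noncomputable def τ : ℝ := liouvilleNumber ((2 : ℕ) : ℝ)

theorem τ_transc : Transcendental ℤ τ := transcendental_liouvilleNumber le_rfl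

/-- the rotation action on the torus -/
noncomputable def rot (d : ℕ) : BorelAction d (T d) where
  act n y := y + tv τ d n
  act_zero x := by rw [tv_zero, add_zero]
  act_add m n x := by
    rw [tv_add]
    abel
  measurable_act n := measurable_add_const _

theorem rot_free {d : ℕ} (hd : 2 ≤ d) : IsFree (rot d) := by
  classical
  intro n x h
  have h1 : tv τ d n = 0 := by
    have : x + tv τ d n = x := h
    exact left_eq_add.1 this.symm
  -- the coordinates different from `i`
  have key : ∀ i j : Fin d, j ≠ i → n j = 0 := by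
    intro i
    have h2 := congrFun h1 i
    have h3 : ((∑ j, (n j : ℝ) * bet τ d i j : ℝ) : UnitAddCircle) = 0 := h2
    rw [AddCircle.coe_eq_zero_iff] at h3
    obtain ⟨k, hk⟩ := h3
    rw [zsmul_eq_mul, mul_one] at hk
    have hsplit : ∑ j, (n j : ℝ) * bet τ d i j = n i * (1 / 2) +
        ∑ j ∈ Finset.univ.erase i, (n j : ℝ) * τ ^ ((i : ℕ) + d * (j : ℕ) + 1) := by
      rw [← Finset.add_sum_erase _ _ (Finset.mem_univ i)]
      congr 1
      · unfold bet
        rw [if_pos rfl]
      · refine Finset.sum_congr rfl fun j hj => ?_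
        unfold bet
        rw [if_neg (Finset.ne_of_mem_erase hj).symm]
    rw [hsplit] at hk
    have hrel : ∑ j ∈ Finset.univ.erase i, ((2 * n j : ℤ) : ℝ) * τ ^ ((i : ℕ) + d * (j : ℕ) + 1) =
        ((2 * k - n i : ℤ) : ℝ) := by
      have : ∑ j ∈ Finset.univ.erase i, ((2 * n j : ℤ) : ℝ) * τ ^ ((i : ℕ) + d * (j : ℕ) + 1) =
          2 * ∑ j ∈ Finset.univ.erase i, (n j : ℝ) * τ ^ ((i : ℕ) + d * (j : ℕ) + 1) := by
        rw [Finset.mul_sum]
        refine Finset.sum_congr rfl fun j _ => ?_
        push_cast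
        ring
      rw [this]
      push_cast
      linarith
    have hzero := indep τ_transc (Finset.univ.erase i) (fun j => (i : ℕ) + d * (j : ℕ) + 1)
      (fun a _ b _ hab => by
        have : d * (a : ℕ) = d * (b : ℕ) := by
          simp only at hab
          omega
        exact Fin.ext (Nat.eq_of_mul_eq_mul_left (by omega) this)) (fun j => by omega)
      (fun j => 2 * n j) (2 * k - n i) hrel
    intro j hj
    have := hzero j (Finset.mem_erase.2 ⟨hj, Finset.mem_univ _⟩)
    omega
  funext j
  have : ∃ i : Fin d, j ≠ i := by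
    by_cases hj : (j : ℕ) = 0
    · exact ⟨⟨1, by omega⟩, fun h => by rw [h] at hj; simp at hj⟩
    · exact ⟨⟨0, by omega⟩, fun h => by rw [h] at hj; simp at hj⟩
  obtain ⟨i, hi⟩ := this
  exact key i j hi

/-- the two halves of the circle -/
noncomputable def half (z : UnitAddCircle) : Bool :=
  decide (((AddCircle.equivIco (1 : ℝ) 0 z : Set.Ico (0 : ℝ) (0 + 1)) : ℝ) < 1 / 2)

theorem half_measurable : Measurable half := by
  have h1 : Measurable fun z : UnitAddCircle =>
      ((AddCircle.equivIco (1 : ℝ) 0 z : Set.Ico (0 : ℝ) (0 + 1)) : ℝ) :=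
    measurable_subtype_coe.comp (AddCircle.measurableEquivIco 1 0).measurable
  refine measurable_to_bool ?_
  have : half ⁻¹' {true} = {z : UnitAddCircle |
      ((AddCircle.equivIco (1 : ℝ) 0 z : Set.Ico (0 : ℝ) (0 + 1)) : ℝ) < 1 / 2} := by
    ext z
    unfold half
    simp
  rw [this]
  exact measurableSet_lt h1 measurable_const

theorem half_ne (z : UnitAddCircle) : half (z + ((1 / 2 : ℝ) : UnitAddCircle)) ≠ half z := by
  have hr := (AddCircle.equivIco (1 : ℝ) 0 z).2
  have hz : (((AddCircle.equivIco (1 : ℝ) 0 z : Set.Ico (0 : ℝ) (0 + 1)) : ℝ) : UnitAddCircle) = z :=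
    AddCircle.coe_equivIco
  set r : ℝ := ((AddCircle.equivIco (1 : ℝ) 0 z : Set.Ico (0 : ℝ) (0 + 1)) : ℝ) with hrdef
  have h1 : half z = decide (r < 1 / 2) := rfl
  have h2 : z + ((1 / 2 : ℝ) : UnitAddCircle) = ((r + 1 / 2 : ℝ) : UnitAddCircle) := by
    rw [← hz, AddCircle.coe_add]
  have hval : ∀ s : ℝ, s ∈ Set.Ico (0 : ℝ) (0 + 1) → half (s : UnitAddCircle) = decide (s < 1 / 2) := by
    intro s hs
    unfold half
    rw [AddCircle.equivIco_coe_eq hs]
  rw [h1, h2]
  by_cases hlt : r < 1 / 2
  · rw [hval (r + 1 / 2) ⟨by linarith [hr.1], by linarith⟩]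
    have : ¬ (r + 1 / 2 < 1 / 2) := by linarith [hr.1]
    rw [decide_eq_true hlt, decide_eq_false this]
    exact Bool.false_ne_true
  · have h3 : ((r + 1 / 2 : ℝ) : UnitAddCircle) = ((r - 1 / 2 : ℝ) : UnitAddCircle) := by
      rw [← sub_eq_zero, ← AddCircle.coe_sub, AddCircle.coe_eq_zero_iff]
      exact ⟨1, by rw [zsmul_eq_mul]; push_cast; ring⟩
    push Not at hlt
    rw [h3, hval (r - 1 / 2) ⟨by linarith, by linarith [hr.2]⟩]
    have h4 : r - 1 / 2 < 1 / 2 := by linarith [hr.2]
    have h5 : ¬ r < 1 / 2 := by linarith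
    rw [decide_eq_true h4, decide_eq_false h5]
    exact Bool.false_ne_true.symm

theorem rot_two (d : ℕ) (i : Fin d) : IsTwoColoring (rot d) i (fun y => half (y i)) := by
  refine ⟨half_measurable.comp (measurable_pi_apply i), fun y => ?_⟩
  show half ((y + tv τ d (Pi.single i 1)) i) ≠ half (y i)
  rw [tv_single]
  have : (y + fun k => ((bet τ d k i : ℝ) : UnitAddCircle)) i = y i + ((1 / 2 : ℝ) : UnitAddCircle) := by
    show y i + ((bet τ d i i : ℝ) : UnitAddCircle) = _
    unfold bet
    rw [if_pos rfl]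
  rw [this]
  exact half_ne _

theorem rot_not_poly {d : ℕ} (hd : 2 ≤ d) (c : T d → Fin (2 ^ d)) :
    ¬ IsPolychromatic (rot d) (2 ^ d) c := by
  classical
  rintro ⟨hc, hpoly⟩
  let k₀ : Fin (2 ^ d) := ⟨0, by positivity⟩
  refine no_set hd τ_transc (c ⁻¹' {k₀}) (hc (measurableSet_singleton _)) (fun y => ?_)
  -- the cube as a family indexed by the subsets of `Fin d`
  let Φ : Finset (Fin d) → Fin (2 ^ d) := fun s => c (y + ∑ j ∈ s, tv τ d (Pi.single j 1))
  have htv : ∀ s : Finset (Fin d), ∑ j ∈ s, tv τ d (Pi.single j 1) =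
      tv τ d (fun i => if i ∈ s then 1 else 0) := by
    intro s
    induction s using Finset.induction_on with
    | empty =>
      rw [Finset.sum_empty, ← tv_zero τ d]
      congr 1
    | insert a s ha ih =>
      rw [Finset.sum_insert ha, ih, ← tv_add]
      congr 1
      funext i
      simp only [Pi.add_apply, Finset.mem_insert]
      by_cases h : i = a
      · rw [h, Pi.single_eq_same, if_neg ha, if_pos (Or.inl rfl)]
        rfl
      · rw [Pi.single_eq_of_ne h, zero_add]
        simp [h]
  have hsurj : Function.Surjective Φ := by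
    intro k
    obtain ⟨ε, hε, hk⟩ := hpoly y k
    refine ⟨Finset.univ.filter (fun i => ε i = 1), ?_⟩
    show c (y + ∑ j ∈ _, tv τ d (Pi.single j 1)) = k
    rw [htv, ← hk]
    show c (y + tv τ d _) = c (y + tv τ d ε)
    congr 3
    funext i
    simp only [Finset.mem_filter, Finset.mem_univ, true_and]
    rcases hε i with h | h <;> simp [h]
  have hbij : Function.Bijective Φ := by
    rw [Fintype.bijective_iff_surjective_and_card]
    exact ⟨hsurj, by simp⟩
  obtain ⟨s₀, hs₀⟩ := hbij.2 k₀
  rw [Finset.sum_eq_single s₀]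
  · rw [Set.indicator_of_mem]
    exact hs₀
  · intro s _ hs
    rw [Set.indicator_of_notMem]
    intro h
    exact hs (hbij.1 ((show Φ s = k₀ from h).trans hs₀.symm))
  · intro h
    exact absurd (Finset.mem_univ _) h

/-- **MP_27056a, Q1: Yes.** For every `d ≥ 2` there is a free Borel action of `ℤ^d` on a standard
Borel space such that every coordinate subaction has a Borel proper 2-coloring while the grid graph
has no Borel `2^d`-polychromatic coloring. -/
theorem result (d : ℕ) (hd : 2 ≤ d) :
    ∃ (X : Type) (_ : MeasurableSpace X) (_ : StandardBorelSpace X) (a : BorelAction d X),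
      IsFree a ∧ (∃ c : Fin d → X → Bool, ∀ i, IsTwoColoring a i (c i)) ∧
      ¬ ∃ c : X → Fin (2 ^ d), IsPolychromatic a (2 ^ d) c :=
  ⟨T d, inferInstance, inferInstance, rot d, rot_free hd,
    ⟨fun i y => half (y i), fun i => rot_two d i⟩, fun ⟨c, hc⟩ => rot_not_poly hd c hc⟩

end Pool.Agent.Results.MP_27056a_lc.NoPolychromatic
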